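import Mathlib
import Pool.Agent.Helper11.Can.NormDef

/-!
# CAN-L19: the norm of a filtration given by a basis and weights
-/

universe u v t

open Finset Matrix

namespace Pool.Agent.Helper11.Can

open Pool.Agent.Helper11.Obs (filNorm)

section

variable {κ : Type u} [Field κ] {m : ℕ}

/-- The map `x ↦ (h *ᵥ x)` restricted to the coordinates which satisfy `p`. -/
noncomputable def L19Map (h : Matrix (Fin m) (Fin m) κ) (p : Fin m → Prop) :
    (Fin m → κ) →ₗ[κ] ({b // p b} → κ) :=
  (LinearMap.funLeft κ κ (Subtype.val : {b // p b} → Fin m)) ∘ₗ h.mulVecLin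

lemma mem_ker_L19Map (h : Matrix (Fin m) (Fin m) κ) (p : Fin m → Prop) (x : Fin m → κ) :
    x ∈ LinearMap.ker (L19Map h p) ↔ ∀ b, p b → h.mulVec x b = 0 := by
  rw [LinearMap.mem_ker, funext_iff]
  constructor
  · intro hx b hb
    exact hx ⟨b, hb⟩
  · intro hx b
    exact hx b.1 b.2

lemma L19Map_surjective {h : Matrix (Fin m) (Fin m) κ} (hdet : h.det ≠ 0) (p : Fin m → Prop) :
    Function.Surjective (L19Map h p) := by
  have h1 : Function.Surjective
      (LinearMap.funLeft κ κ (Subtype.val : {b // p b} → Fin m)) :=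
    LinearMap.funLeft_surjective_of_injective κ κ _ Subtype.val_injective
  have h2 : Function.Surjective h.mulVecLin := by
    intro y
    refine ⟨h⁻¹.mulVec y, ?_⟩
    rw [Matrix.mulVecLin_apply, Matrix.mulVec_mulVec,
      Matrix.mul_nonsing_inv _ (isUnit_iff_ne_zero.2 hdet), Matrix.one_mulVec]
  intro y
  obtain ⟨z, rfl⟩ := h1 y
  obtain ⟨x, rfl⟩ := h2 z
  exact ⟨x, rfl⟩

open Classical in
lemma L19_finrank {h : Matrix (Fin m) (Fin m) κ} (hdet : h.det ≠ 0) (p : Fin m → Prop)
    (W : Submodule κ (Fin m → κ)) (hW : ∀ x, x ∈ W ↔ ∀ b, p b → h.mulVec x b = 0) :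
    Module.finrank κ W + #{b | p b} = m := by
  have h1 : W = LinearMap.ker (L19Map h p) := by
    ext x
    rw [hW, mem_ker_L19Map]
  have h2 := LinearMap.finrank_range_add_finrank_ker (L19Map h p)
  rw [LinearMap.range_eq_top.2 (L19Map_surjective hdet p), finrank_top,
    Module.finrank_fintype_fun_eq_card, Module.finrank_fintype_fun_eq_card, Fintype.card_fin,
    Fintype.card_subtype, ← h1] at h2
  omega

/-- CAN-L19: the norm of a filtration given by a basis and weights. -/
theorem filNorm_eq {F : ℝ → Submodule κ (Fin m → κ)}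
    {h : Matrix (Fin m) (Fin m) κ} {γ : Fin m → ℝ} (hdet : h.det ≠ 0)
    (hF : ∀ a x, x ∈ F a ↔ ∀ b, γ b < a → h.mulVec x b = 0) :
    filNorm F = ∑ b, γ b ^ 2 := by
  classical
  have hsup : ∀ a x, x ∈ (⨆ a' > a, F a' : Submodule κ (Fin m → κ)) ↔
      ∀ b, γ b ≤ a → h.mulVec x b = 0 := by
    intro a x
    constructor
    · intro hx
      have hle : (⨆ a' > a, F a' : Submodule κ (Fin m → κ)) ≤
          LinearMap.ker (L19Map h (fun b => γ b ≤ a)) := by
        refine iSup₂_le fun a' ha' y hy => ?_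
        rw [mem_ker_L19Map]
        intro b hb
        exact (hF a' y).1 hy b (lt_of_le_of_lt hb ha')
      have := hle hx
      rwa [mem_ker_L19Map] at this
    · intro hx
      obtain ⟨a', ha', hb'⟩ : ∃ a' > a, ∀ b, a < γ b → a' ≤ γ b := by
        by_cases hne : (univ.filter fun b => a < γ b).Nonempty
        · obtain ⟨b₀, hb₀, hmin⟩ := exists_min_image _ γ hne
          refine ⟨γ b₀, (mem_filter.1 hb₀).2, fun b hb => hmin b ?_⟩
          exact mem_filter.2 ⟨mem_univ _, hb⟩
        · refine ⟨a + 1, lt_add_one a, fun b hb => ?_⟩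
          exact absurd ⟨b, mem_filter.2 ⟨mem_univ _, hb⟩⟩ hne
      have hmem : x ∈ F a' := by
        rw [hF]
        intro b hb
        apply hx
        by_contra hlt
        exact absurd (hb' b (not_le.1 hlt)) (not_le.2 hb)
      exact (le_iSup₂_of_le a' ha' le_rfl : F a' ≤ ⨆ a' > a, F a') hmem
  have hterm : ∀ a : ℝ, a ^ 2 * ((Module.finrank κ (F a) : ℝ) -
      Module.finrank κ (⨆ a' > a, F a' : Submodule κ (Fin m → κ))) =
      a ^ 2 * (#{b | γ b = a} : ℕ) := by
    intro a
    have h1 := L19_finrank hdet (fun b => γ b < a) (F a) (hF a)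
    have h2 := L19_finrank hdet (fun b => γ b ≤ a) _ (hsup a)
    have h3 : #{b | γ b ≤ a} = #{b | γ b < a} + #{b | γ b = a} := by
      rw [← card_union_of_disjoint]
      · congr 1
        ext b
        simp [le_iff_lt_or_eq]
      · rw [disjoint_filter]
        intro b _ hb hb'
        exact absurd hb' hb.ne
    have h4 : (Module.finrank κ (F a) : ℝ) + #{b | γ b < a} = m := by
      exact_mod_cast h1
    have h5 : (Module.finrank κ (⨆ a' > a, F a' : Submodule κ (Fin m → κ)) : ℝ) +
        (#{b | γ b < a} + #{b | γ b = a}) = m := by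
      rw [h3] at h2
      exact_mod_cast h2
    congr 1
    linarith
  unfold filNorm
  rw [finsum_congr hterm, finsum_eq_sum_of_support_subset (s := univ.image γ)]
  · rw [sum_comp (fun a : ℝ => a ^ 2) γ]
    refine sum_congr rfl fun a _ => ?_
    rw [nsmul_eq_mul, mul_comm]
  · intro a ha
    rw [Function.mem_support] at ha
    have hne : #{b | γ b = a} ≠ 0 := by
      intro h0
      apply ha
      rw [h0, Nat.cast_zero, mul_zero]
    obtain ⟨b, hb⟩ := card_ne_zero.1 hne
    rw [coe_image]
    exact ⟨b, mem_coe.2 (mem_univ _), (mem_filter.1 hb).2⟩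

end

end Pool.Agent.Helper11.Can
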